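import Mathlib

/-!
# Boolean circuits with several outputs, integer multiplication

Definitions only.
-/

open Finset

namespace Pool.Agent.H468R2.Mult

/-- A gate of fan-in one or two, labelled by an arbitrary Boolean function; its sources are inputs
(indexed by `ι`) or gates. -/
inductive Gate (ι : Type) (s : ℕ) : Type
  | unary (φ : Bool → Bool) (a : ι ⊕ Fin s)
  | binary (φ : Bool → Bool → Bool) (a b : ι ⊕ Fin s)

/-- The list of the wires entering a gate. -/
def Gate.wires {ι : Type} {s : ℕ} : Gate ι s → List (ι ⊕ Fin s)
  | .unary _ a => [a]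
  | .binary _ a b => [a, b]

/-- The value of a gate when its sources have the values `ν`. -/
def Gate.eval {ι : Type} {s : ℕ} (g : Gate ι s) (ν : ι ⊕ Fin s → Bool) : Bool :=
  match g with
  | .unary φ a => φ (ν a)
  | .binary φ a b => φ (ν a) (ν b)

/-- A circuit with inputs indexed by `ι` and outputs indexed by `ο`: `size` gates, numbered so that
wires go from smaller to larger numbers; every output is an input or a gate. -/
structure Circuit (ι ο : Type) : Type where
  size : ℕ
  gate : Fin size → Gate ι size
  acyclic : ∀ i j : Fin size, (Sum.inr j : ι ⊕ Fin size) ∈ (gate i).wires → j < i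
  out : ο → ι ⊕ Fin size

/-- The circuit computes `F`. -/
def Circuit.Computes {ι ο : Type} (C : Circuit ι ο) (F : (ι → Bool) → ο → Bool) : Prop :=
  ∀ x, ∃ v : Fin C.size → Bool, (∀ g, v g = (C.gate g).eval (Sum.elim x v)) ∧
    ∀ j, Sum.elim x v (C.out j) = F x j

/-- The undirected graph on the gates (the inputs are deleted). -/
def Circuit.adj {ι ο : Type} (C : Circuit ι ο) (g h : Fin C.size) : Prop :=
  Sum.inr h ∈ (C.gate g).wires ∨ Sum.inr g ∈ (C.gate h).wires

/-- The number whose binary digits are given by `x`. -/
def toNat {n : ℕ} (x : Fin n → Bool) : ℕ := ∑ i, if x i = true then 2 ^ (i : ℕ) else 0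

/-- Multiplication of two `n`-bit numbers. -/
def mul (n : ℕ) (z : Fin n ⊕ Fin n → Bool) (j : Fin (2 * n)) : Bool :=
  (toNat (fun i => z (.inl i)) * toNat (fun i => z (.inr i))).testBit j

open Classical in
/-- The number of wires leaving the bits of the first factor (a gate reading a bit twice is
counted once). -/
noncomputable def Circuit.leftWires {n : ℕ} {ο : Type} (C : Circuit (Fin n ⊕ Fin n) ο) : ℕ :=
  ∑ g, (univ.filter fun i => Sum.inl (Sum.inl i) ∈ (C.gate g).wires).card

/-- The graph with adjacency relation `adj` has a tree decomposition of width at most `t`. The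
tree is rooted at node `0` and given by the parent function `par`, where `par i < i`; the nodes
whose bags contain a given vertex form a nonempty subtree, i.e. exactly one of them is the root
or has a parent whose bag does not contain the vertex. -/
def HasTreeDec {V : Type} (adj : V → V → Prop) (t : ℕ) : Prop :=
  ∃ (T : ℕ) (par : Fin (T + 1) → Fin (T + 1)) (bag : Fin (T + 1) → Finset V),
    (∀ i, 0 < i → par i < i) ∧ (∀ i, (bag i).card ≤ t + 1) ∧
    (∀ v, ∃! i, v ∈ bag i ∧ (i = 0 ∨ v ∉ bag (par i))) ∧
    (∀ u v, adj u v → ∃ i, u ∈ bag i ∧ v ∈ bag i)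

end Pool.Agent.H468R2.Mult
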