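import Mathlib
import Pool.Agent.H468R2.Mult.Defs
import Pool.Agent.H468R2.Frag.Recur
import Pool.Agent.H468R2.Frag.TreeSepW

/-! # Multiplication circuits of small treewidth -/

open Finset

namespace Pool.Agent.H468R2.Mult

open Pool.Agent.H468R2.Frag (inSet mem_inSet recursive_bound treeDec_separator_weighted)

variable {n : ℕ}

lemma eval_congr {ι : Type} {s : ℕ} (g : Gate ι s) (ν ν' : ι ⊕ Fin s → Bool)
    (h : ∀ a ∈ g.wires, ν a = ν' a) : g.eval ν = g.eval ν' := by
  cases g with
  | unary φ a =>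
    have := h a (by simp [Gate.wires])
    simp [Gate.eval, this]
  | binary φ a b =>
    have h1 := h a (by simp [Gate.wires])
    have h2 := h b (by simp [Gate.wires])
    simp [Gate.eval, h1, h2]

/-- The binary digits of `toNat x`. -/
lemma testBit_toNat : ∀ (n : ℕ) (x : Fin n → Bool) (i : ℕ),
    (toNat x).testBit i = if h : i < n then x ⟨i, h⟩ else false := by
  intro n
  induction n with
  | zero => intro x i; simp [toNat]
  | succ n ih =>
    intro x i
    have e : toNat x = Nat.bit (x 0) (toNat fun i => x i.succ) := by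
      unfold toNat
      rw [Fin.sum_univ_succ, Nat.bit_val, Finset.mul_sum, add_comm]
      congr 1
      · apply Finset.sum_congr rfl
        intro i _
        split_ifs
        · rw [Fin.val_succ, pow_succ]; ring
        · simp
      · cases x 0 <;> simp
    rw [e]
    cases i with
    | zero => simp
    | succ i =>
      rw [Nat.testBit_bit_succ, ih]
      by_cases h : i < n
      · rw [dif_pos h, dif_pos (by omega)]
        rfl
      · rw [dif_neg h, dif_neg (by omega)]

lemma toNat_single (k : Fin n) : toNat (fun i => decide (i = k)) = 2 ^ (k : ℕ) := by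
  unfold toNat
  rw [Finset.sum_eq_single k]
  · simp
  · intro i _ hi
    simp [hi]
  · intro h
    exact absurd (mem_univ _) h

lemma toNat_zero : toNat (fun _ : Fin n => false) = 0 := by
  simp [toNat]

/-- Multiplication by a power of two is a shift. -/
lemma mul_shift (x : Fin n → Bool) (k : Fin n) (j : Fin (2 * n)) (i : Fin n)
    (hj : (j : ℕ) = i + k) :
    mul n (Sum.elim x fun i => decide (i = k)) j = x i := by
  unfold mul
  simp only [Sum.elim_inl, Sum.elim_inr]
  rw [toNat_single, hj, Nat.testBit_mul_two_pow, testBit_toNat]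
  simp

/-- The relation of the gate graph: the gate `h` feeds the gate `g`. -/
def E {ι ο : Type} (C : Circuit ι ο) (h g : Fin C.size) : Prop :=
  (Sum.inr h : ι ⊕ Fin C.size) ∈ (C.gate g).wires

/-- A set `A` of gates which computes many bits of the shift by `k` of unread bits of the first
factor has many gates feeding it. -/
lemma key (C : Circuit (Fin n ⊕ Fin n) (Fin (2 * n))) (hC : C.Computes (mul n))
    (A : Finset (Fin C.size)) (R : Finset (Fin n))
    (hR : ∀ g ∈ A, ∀ i : Fin n, Sum.inl (Sum.inl i) ∈ (C.gate g).wires → i ∈ R) (k : Fin n)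
    (O : Finset (Fin (2 * n)))
    (hO : ∀ j ∈ O, (∃ g ∈ A, C.out j = .inr g) ∧ ∃ i : Fin n, i ∉ R ∧ (j : ℕ) = i + k) :
    O.card ≤ (inSet (E C) A).card := by
  classical
  set Z := inSet (E C) A with hZ
  choose v hv1 hv2 using hC
  let x : (O → Bool) → Fin n → Bool := fun p i =>
    if h : ∃ j : O, ((j : Fin (2 * n)) : ℕ) = i + k then p h.choose else false
  have hx : ∀ (p : O → Bool) (j : O) (i : Fin n), ((j : Fin (2 * n)) : ℕ) = i + k →
      x p i = p j := by
    intro p j i hj
    have h : ∃ j : O, ((j : Fin (2 * n)) : ℕ) = i + k := ⟨j, hj⟩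
    simp only [x]
    rw [dif_pos h]
    congr 1
    have h2 := h.choose_spec
    apply Subtype.ext
    apply Fin.ext
    omega
  have hxR : ∀ (p : O → Bool) (i : Fin n), i ∈ R → x p i = false := by
    intro p i hi
    simp only [x]
    rw [dif_neg]
    rintro ⟨j, hj⟩
    obtain ⟨-, i', hi', hj'⟩ := hO j j.2
    have : i = i' := Fin.ext (by omega)
    exact hi' (this ▸ hi)
  let z : (O → Bool) → Fin n ⊕ Fin n → Bool := fun p =>
    Sum.elim (x p) (fun i => decide (i = k))
  let f : (O → Bool) → (Z → Bool) := fun p u => v (z p) u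
  have hinj : Function.Injective f := by
    intro p p' hpp
    have hA : ∀ g, g ∈ A → v (z p) g = v (z p') g := by
      intro g
      induction g using WellFoundedLT.induction with
      | _ g ih =>
        intro hg
        rw [hv1 (z p) g, hv1 (z p') g]
        apply eval_congr
        intro s hs
        rcases s with (i | i) | h
        · simp only [Sum.elim_inl, z]
          rw [hxR p i (hR g hg i hs), hxR p' i (hR g hg i hs)]
        · simp only [Sum.elim_inl, Sum.elim_inr, z]
        · simp only [Sum.elim_inr]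
          by_cases hh : h ∈ A
          · exact ih h (C.acyclic g h hs) hh
          · have hhZ : h ∈ Z := by
              rw [hZ, mem_inSet]
              exact ⟨hh, g, hg, hs⟩
            exact congrFun hpp ⟨h, hhZ⟩
    funext j
    obtain ⟨⟨g, hg, hjg⟩, i, -, hji⟩ := hO j j.2
    have e1 := hv2 (z p) j
    have e2 := hv2 (z p') j
    rw [hjg] at e1 e2
    simp only [Sum.elim_inr] at e1 e2
    rw [mul_shift (x p) k j i hji] at e1
    rw [mul_shift (x p') k j i hji] at e2
    rw [hx p j i hji] at e1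
    rw [hx p' j i hji] at e2
    rw [← e1, ← e2]
    exact hA g hg
  have hcard := Fintype.card_le_of_injective f hinj
  simp only [Fintype.card_pi, Fintype.card_bool, prod_const, card_univ, Fintype.card_coe] at hcard
  exact (Nat.pow_le_pow_iff_right (by norm_num)).1 hcard

/-- For an output bit in the middle there are at least `n / 2` bits of the first factor which are
shifted to it by some shift. -/
lemma card_shifts (j : Fin (2 * n)) (h1 : n / 2 ≤ (j : ℕ)) (h2 : (j : ℕ) < n / 2 + n) :
    n / 2 ≤ (univ.filter fun i : Fin n => ∃ k : Fin n, (j : ℕ) = i + k).card := by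
  classical
  let φ : Fin (n / 2) → Fin n := fun i =>
    if (j : ℕ) < n then ⟨i, by omega⟩ else ⟨n - 1 - i, by omega⟩
  have hφ : ∀ i, φ i ∈ (univ.filter fun i : Fin n => ∃ k : Fin n, (j : ℕ) = i + k) := by
    intro i
    simp only [mem_filter, mem_univ, true_and, φ]
    split_ifs with h
    · exact ⟨⟨j - i, by omega⟩, by simp only; omega⟩
    · exact ⟨⟨j - (n - 1 - i), by omega⟩, by simp only; omega⟩
  have hinj : Function.Injective φ := by
    intro a b hab
    simp only [φ] at hab
    split_ifs at hab with h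
    · have := congrArg Fin.val hab
      simp only at this
      exact Fin.ext this
    · have := congrArg Fin.val hab
      simp only at this
      exact Fin.ext (by omega)
  calc n / 2 = (univ : Finset (Fin (n / 2))).card := by simp
    _ = (univ.image φ).card := (card_image_of_injective _ hinj).symm
    _ ≤ _ := by
        apply card_le_card
        intro i hi
        obtain ⟨a, -, rfl⟩ := mem_image.1 hi
        exact hφ a

lemma leaf (C : Circuit (Fin n ⊕ Fin n) (Fin (2 * n))) (hC : C.Computes (mul n)) (hn : 4 ≤ n)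
    (A : Finset (Fin C.size)) (R : Finset (Fin n))
    (hR : ∀ g ∈ A, ∀ i : Fin n, Sum.inl (Sum.inl i) ∈ (C.gate g).wires → i ∈ R)
    (hRc : R.card ≤ n / 4) (O : Finset (Fin (2 * n)))
    (hO : ∀ j ∈ O, ∃ g ∈ A, C.out j = .inr g)
    (hmid : ∀ j ∈ O, n / 2 ≤ (j : ℕ) ∧ (j : ℕ) < n / 2 + n) :
    O.card ≤ 8 * (inSet (E C) A).card := by
  classical
  set z := (inSet (E C) A).card with hz
  have hk : ∀ k : Fin n, (O.filter fun j : Fin (2 * n) => ∃ i : Fin n, i ∉ R ∧ (j : ℕ) = i + k).card ≤ z := by
    intro k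
    apply key C hC A R hR k
    intro j hj
    rw [mem_filter] at hj
    exact ⟨hO j hj.1, hj.2⟩
  have hsum : ∑ k : Fin n, (O.filter fun j : Fin (2 * n) => ∃ i : Fin n, i ∉ R ∧ (j : ℕ) = i + k).card =
      ∑ j ∈ O, (univ.filter fun k : Fin n => ∃ i : Fin n, i ∉ R ∧ (j : ℕ) = i + k).card := by
    simp only [card_filter]
    exact sum_comm
  have hj : ∀ j ∈ O, n / 2 - n / 4 ≤
      (univ.filter fun k : Fin n => ∃ i : Fin n, i ∉ R ∧ (j : ℕ) = i + k).card := by
    intro j hjO
    have h1 := card_shifts j (hmid j hjO).1 (hmid j hjO).2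
    have h2 : n / 2 - n / 4 ≤
        ((univ.filter fun i : Fin n => ∃ k : Fin n, (j : ℕ) = i + k) \ R).card := by
      have := le_card_sdiff R (univ.filter fun i : Fin n => ∃ k : Fin n, (j : ℕ) = i + k)
      omega
    refine h2.trans ?_
    apply card_le_card_of_injOn (fun i : Fin n => (⟨(j - i) % n, Nat.mod_lt _ (by omega)⟩ : Fin n))
    · intro i hi
      rw [mem_coe, mem_sdiff, mem_filter] at hi
      obtain ⟨⟨-, k, hk⟩, hiR⟩ := hi
      rw [mem_coe, mem_filter]
      refine ⟨mem_univ _, i, hiR, ?_⟩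
      simp only
      rw [Nat.mod_eq_of_lt (by omega)]
      omega
    · intro i hi i' hi' h
      rw [mem_coe, mem_sdiff, mem_filter] at hi hi'
      obtain ⟨⟨-, k, hk⟩, -⟩ := hi
      obtain ⟨⟨-, k', hk'⟩, -⟩ := hi'
      have h3 := congrArg Fin.val h
      simp only at h3
      rw [Nat.mod_eq_of_lt (by omega), Nat.mod_eq_of_lt (by omega)] at h3
      exact Fin.ext (by omega)
  have h3 : O.card * (n / 2 - n / 4) ≤ n * z := by
    calc O.card * (n / 2 - n / 4) = ∑ _j ∈ O, (n / 2 - n / 4) := by simp
      _ ≤ ∑ j ∈ O, (univ.filter fun k : Fin n => ∃ i : Fin n, i ∉ R ∧ (j : ℕ) = i + k).card :=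
          sum_le_sum hj
      _ = ∑ k : Fin n, (O.filter fun j : Fin (2 * n) => ∃ i : Fin n, i ∉ R ∧ (j : ℕ) = i + k).card := hsum.symm
      _ ≤ ∑ _k : Fin n, z := sum_le_sum fun k _ => hk k
      _ = n * z := by simp
  have h4 : n ≤ 8 * (n / 2 - n / 4) := by omega
  have h5 : n * O.card ≤ n * (8 * z) := by
    calc n * O.card ≤ 8 * (n / 2 - n / 4) * O.card := Nat.mul_le_mul_right _ h4
      _ = 8 * (O.card * (n / 2 - n / 4)) := by ring
      _ ≤ 8 * (n * z) := Nat.mul_le_mul_left _ h3
      _ = n * (8 * z) := by ring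
  exact Nat.le_of_mul_le_mul_left h5 (by omega)

open Classical in
theorem mul_bound_nat (C : Circuit (Fin n ⊕ Fin n) (Fin (2 * n))) (hC : C.Computes (mul n))
    (hn : 8 ≤ n) (t D : ℕ) (hT : HasTreeDec C.adj t)
    (hD : C.leftWires * 2 ^ D ≤ (n / 4) * 3 ^ D) :
    n ≤ C.leftWires ∧ n * n ≤ 192 * (t + 1) * (D + 2) * C.leftWires := by
  -- the middle outputs are gates
  have hgate : ∀ j : Fin (2 * n), n / 2 ≤ (j : ℕ) → (j : ℕ) < n / 2 + n →
      ∃ g, C.out j = .inr g := by
    intro j _ _
    rcases hj : C.out j with (i | i) | g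
    · exfalso
      obtain ⟨v, -, hv⟩ := hC (Sum.elim (fun _ => true) (fun _ => false))
      have := hv j
      rw [hj] at this
      simp only [Sum.elim_inl, mul, Sum.elim_inr, toNat_zero, mul_zero] at this
      simp at this
    · exfalso
      obtain ⟨v, -, hv⟩ := hC (Sum.elim (fun _ => false) (fun _ => true))
      have := hv j
      rw [hj] at this
      simp only [Sum.elim_inl, mul, Sum.elim_inr, toNat_zero, zero_mul] at this
      simp at this
    · exact ⟨g, rfl⟩
  let M : Finset (Fin (2 * n)) := univ.filter fun j => n / 2 ≤ (j : ℕ) ∧ (j : ℕ) < n / 2 + n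
  have hM : M.card = n := by
    let φ : Fin n → Fin (2 * n) := fun i => ⟨n / 2 + i, by omega⟩
    have : M = univ.image φ := by
      ext j
      simp only [M, mem_filter, mem_univ, true_and, mem_image, φ]
      constructor
      · rintro ⟨h1, h2⟩
        exact ⟨⟨j - n / 2, by omega⟩, Fin.ext (by simp only; omega)⟩
      · rintro ⟨i, rfl⟩
        simp only
        omega
    rw [this, card_image_of_injective]
    · simp
    · intro a b hab
      have := congrArg Fin.val hab
      simp only [φ] at this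
      exact Fin.ext (by omega)
  let μ : Fin C.size → ℕ := fun g =>
    (univ.filter fun i : Fin n => Sum.inl (Sum.inl i) ∈ (C.gate g).wires).card
  let o : Fin C.size → ℕ := fun g => (M.filter fun j => C.out j = .inr g).card
  have hoA : ∀ A : Finset (Fin C.size), ∑ g ∈ A, o g =
      (M.filter fun j => ∃ g ∈ A, C.out j = .inr g).card := by
    intro A
    simp only [o]
    rw [← card_biUnion]
    · congr 1
      ext j
      simp only [mem_biUnion, mem_filter]
      constructor
      · rintro ⟨g, hg, hj, hjg⟩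
        exact ⟨hj, g, hg, hjg⟩
      · rintro ⟨hj, g, hg, hjg⟩
        exact ⟨g, hg, hj, hjg⟩
    · intro g _ g' _ hne
      rw [Function.onFun, Finset.disjoint_left]
      intro j hj hj'
      simp only [mem_filter] at hj hj'
      rw [hj.2] at hj'
      exact hne (Sum.inr_injective hj'.2)
  have hotot : ∑ g, o g = n := by
    rw [hoA, Finset.filter_true_of_mem, hM]
    intro j hj
    simp only [M, mem_filter, mem_univ, true_and] at hj
    obtain ⟨g, hg⟩ := hgate j hj.1 hj.2
    exact ⟨g, mem_univ _, hg⟩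
  have hleaf : ∀ A : Finset (Fin C.size), ∑ g ∈ A, μ g ≤ n / 4 →
      ∑ g ∈ A, o g ≤ 8 * (inSet (E C) A).card := by
    intro A hA
    let R : Finset (Fin n) := A.biUnion fun g =>
      univ.filter fun i : Fin n => Sum.inl (Sum.inl i) ∈ (C.gate g).wires
    have hRc : R.card ≤ n / 4 := card_biUnion_le.trans hA
    rw [hoA]
    apply leaf C hC (by omega) A R _ hRc
    · intro j hj
      exact (mem_filter.1 hj).2
    · intro j hj
      have := (mem_filter.1 hj).1
      simp only [M, mem_filter, mem_univ, true_and] at this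
      exact this
    · intro g hg i hi
      simp only [R, mem_biUnion, mem_filter, mem_univ, true_and]
      exact ⟨g, hg, hi⟩
  have hfan : ∀ g, (C.gate g).wires.length ≤ 2 := by
    intro g
    cases C.gate g <;> simp [Gate.wires]
  have hμ2 : ∀ g, μ g ≤ 2 := by
    intro g
    have h1 : μ g ≤ (C.gate g).wires.toFinset.card := by
      apply card_le_card_of_injOn (fun i => (Sum.inl (Sum.inl i) : (Fin n ⊕ Fin n) ⊕ Fin C.size))
      · intro i hi
        exact mem_coe.2 (List.mem_toFinset.2 (mem_filter.1 (mem_coe.1 hi)).2)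
      · intro i _ j _ h
        simpa using h
    exact h1.trans ((List.toFinset_card_le _).trans (hfan g))
  have ho1 : ∀ g, o g ≤ 16 := by
    intro g
    have h1 := hleaf {g} (by
      rw [sum_singleton]
      have := hμ2 g
      omega)
    rw [sum_singleton] at h1
    have h2 : (inSet (E C) {g}).card ≤ (C.gate g).wires.toFinset.card := by
      apply card_le_card_of_injOn (fun h => (Sum.inr h : (Fin n ⊕ Fin n) ⊕ Fin C.size))
      · intro h hh
        rw [mem_coe, mem_inSet] at hh
        obtain ⟨-, g', hg', hE⟩ := hh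
        rw [mem_singleton] at hg'
        subst hg'
        exact mem_coe.2 (List.mem_toFinset.2 hE)
      · intro i _ j _ h
        exact Sum.inr_injective h
    have h3 := h2.trans ((List.toFinset_card_le _).trans (hfan g))
    omega
  have hread : n ≤ C.leftWires := by
    have h1 : (univ : Finset (Fin n)) ⊆ (univ : Finset (Fin C.size)).biUnion fun g =>
        univ.filter fun i : Fin n => Sum.inl (Sum.inl i) ∈ (C.gate g).wires := by
      intro i _
      by_contra hcon
      simp only [mem_biUnion, mem_filter, mem_univ, true_and, not_exists] at hcon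
      -- the bit `i` is not read
      obtain ⟨j, k, hj1, hj2, hjk⟩ : ∃ (j : Fin (2 * n)) (k : Fin n), n / 2 ≤ (j : ℕ) ∧
          (j : ℕ) < n / 2 + n ∧ (j : ℕ) = i + k := by
        by_cases h : (i : ℕ) < n / 2
        · exact ⟨⟨n / 2, by omega⟩, ⟨n / 2 - i, by omega⟩, by simp, by simp only; omega,
            by simp only; omega⟩
        · exact ⟨⟨i, by omega⟩, ⟨0, by omega⟩, by simp only; omega, by simp only; omega, by simp⟩
      obtain ⟨g, hg⟩ := hgate j hj1 hj2
      have := key C hC univ (univ.filter fun i' => i' ≠ i) (by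
        intro g _ i' hi'
        rw [mem_filter]
        refine ⟨mem_univ _, ?_⟩
        rintro rfl
        exact hcon g hi') k {j} (by
        intro j' hj'
        rw [mem_singleton] at hj'
        subst hj'
        exact ⟨⟨g, mem_univ _, hg⟩, i, by simp, hjk⟩)
      rw [card_singleton] at this
      obtain ⟨u, hu⟩ := card_pos.1 this
      rw [mem_inSet] at hu
      exact hu.1 (mem_univ _)
    have h2 := card_le_card h1
    rw [card_univ, Fintype.card_fin] at h2
    exact h2.trans card_biUnion_le
  refine ⟨hread, ?_⟩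
  have hT' : Pool.Agent.H468R2.Frag.HasTreeDec C.adj t := hT
  have hsep : ∀ A : Finset (Fin C.size), ∃ (S : Finset (Fin C.size)) (side : Fin C.size → Bool),
      S ⊆ A ∧ S.card ≤ t + 1 ∧
      (∀ u v, u ∈ A → v ∈ A → u ∉ S → v ∉ S → E C u v → side u = side v) ∧
      (∀ c, 3 * ∑ v ∈ A.filter (fun v => v ∉ S ∧ side v = c), μ v ≤ 2 * ∑ v ∈ A, μ v) := by
    intro A
    obtain ⟨S, side, h1, h2, h3, h4⟩ := treeDec_separator_weighted C.adj t hT' μ A
    exact ⟨S, side, h1, h2, fun u v hu hv hu' hv' huv => h3 u v hu hv hu' hv' (Or.inr huv), h4⟩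
  obtain ⟨I, hI, hO⟩ := recursive_bound (E C) μ o (t + 1) (n / 4) 8 16
    (by omega) ho1 hsep hleaf D univ hD
  have hin : (inSet (E C) (univ : Finset (Fin C.size))).card = 0 := by
    rw [card_eq_zero, Finset.eq_empty_iff_forall_notMem]
    intro u hu
    rw [mem_inSet] at hu
    exact hu.1 (mem_univ _)
  rw [hotot, hin] at hO
  have hL : ∑ g, μ g = C.leftWires := rfl
  rw [hL] at hI
  set L := C.leftWires with hLdef
  have h1 : n / 4 * (I + 1) ≤ 3 * L := by
    rw [mul_add, mul_one]
    omega
  have h2 : n ≤ 8 * (n / 4) := by omega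
  have h3 : n * (I + 1) ≤ 24 * L := by
    calc n * (I + 1) ≤ 8 * (n / 4) * (I + 1) := Nat.mul_le_mul_right _ h2
      _ = 8 * (n / 4 * (I + 1)) := by ring
      _ ≤ 8 * (3 * L) := Nat.mul_le_mul_left _ h1
      _ = 24 * L := by ring
  calc n * n ≤ n * (8 * ((I + 1) * (0 + (t + 1) * D)) + 16 * (t + 1) * I) :=
        Nat.mul_le_mul_left _ hO
    _ ≤ n * (8 * ((I + 1) * (0 + (t + 1) * D)) + 16 * (t + 1) * (I + 1)) := by
        apply Nat.mul_le_mul_left
        apply Nat.add_le_add_left
        apply Nat.mul_le_mul_left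
        omega
    _ = 8 * (t + 1) * (D + 2) * (n * (I + 1)) := by ring
    _ ≤ 8 * (t + 1) * (D + 2) * (24 * L) := Nat.mul_le_mul_left _ h3
    _ = 192 * (t + 1) * (D + 2) * L := by ring

theorem mul_bound (C : Circuit (Fin n ⊕ Fin n) (Fin (2 * n))) (hC : C.Computes (mul n))
    (hn : 8 ≤ n) (t : ℕ) (hT : HasTreeDec C.adj t) :
    (n : ℝ) ^ 2 ≤ 768 * (t + 1) * C.leftWires * Real.logb 2 (8 * C.leftWires / n) := by
  set L := C.leftWires with hL
  have hnL : n ≤ L := by
    obtain ⟨D, hD⟩ : ∃ D : ℕ, L * 2 ^ D ≤ (n / 4) * 3 ^ D := by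
      obtain ⟨D, hD⟩ := pow_unbounded_of_one_lt (L : ℝ) (show (1 : ℝ) < 3 / 2 by norm_num)
      refine ⟨D, ?_⟩
      have h1 : (L : ℝ) * 2 ^ D ≤ ((n / 4 : ℕ) : ℝ) * 3 ^ D := by
        rw [div_pow, lt_div_iff₀ (by positivity)] at hD
        have h2 : (1 : ℝ) ≤ ((n / 4 : ℕ) : ℝ) := by
          exact_mod_cast (show 1 ≤ n / 4 by omega)
        have h3 : (0 : ℝ) < 3 ^ D := by positivity
        nlinarith
      exact_mod_cast h1
    exact (mul_bound_nat C hC hn t D hT hD).1
  have hn0 : (0 : ℝ) < n := by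
    have : 0 < n := by omega
    exact_mod_cast this
  have hnL' : (n : ℝ) ≤ L := by exact_mod_cast hnL
  set X : ℝ := 8 * L / n with hX
  have hX3 : 8 ≤ X := by
    rw [hX, le_div_iff₀ hn0]
    linarith
  set y := Real.logb 2 X with hy
  have hy1 : 3 ≤ y := by
    rw [hy, Real.le_logb_iff_rpow_le (by norm_num) (by linarith)]
    calc (2 : ℝ) ^ (3 : ℝ) = 8 := by
          rw [show (3 : ℝ) = ((3 : ℕ) : ℝ) by norm_num, Real.rpow_natCast]; norm_num
      _ ≤ X := hX3
  set k := ⌈y⌉₊ with hk
  have hky : y ≤ k := Nat.le_ceil y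
  have hky2 : (k : ℝ) < y + 1 := Nat.ceil_lt_add_one (by linarith)
  have hXk : X ≤ 2 ^ k := by
    have h1 : X = 2 ^ y := by
      rw [hy, Real.rpow_logb (by norm_num) (by norm_num) (by linarith)]
    rw [h1, ← Real.rpow_natCast]
    exact Real.rpow_le_rpow_of_exponent_le (by norm_num) hky
  have hD : L * 2 ^ (2 * k) ≤ (n / 4) * 3 ^ (2 * k) := by
    have h1 : (8 : ℝ) * L ≤ n * 2 ^ k := by
      rw [hX, div_le_iff₀ hn0] at hXk
      linarith
    have h2 : 8 * L ≤ n * 2 ^ k := by exact_mod_cast h1
    have h3 : n ≤ 8 * (n / 4) := by omega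
    have h4 : L ≤ (n / 4) * 2 ^ k := by
      have : 8 * L ≤ 8 * ((n / 4) * 2 ^ k) := by
        calc 8 * L ≤ n * 2 ^ k := h2
          _ ≤ 8 * (n / 4) * 2 ^ k := Nat.mul_le_mul_right _ h3
          _ = _ := by ring
      omega
    calc L * 2 ^ (2 * k) ≤ (n / 4) * 2 ^ k * 2 ^ (2 * k) := Nat.mul_le_mul_right _ h4
      _ = (n / 4) * 8 ^ k := by
          rw [mul_assoc, pow_mul, ← mul_pow]; norm_num
      _ ≤ (n / 4) * 9 ^ k := Nat.mul_le_mul_left _ (Nat.pow_le_pow_left (by norm_num) k)
      _ = (n / 4) * 3 ^ (2 * k) := by rw [pow_mul]; norm_num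
  have hmain := (mul_bound_nat C hC hn t (2 * k) hT hD).2
  have hmain' : (n : ℝ) * n ≤ 192 * (t + 1) * (2 * k + 2) * L := by exact_mod_cast hmain
  have h5 : (2 * (k : ℝ) + 2) ≤ 4 * y := by linarith
  have h6 : (0 : ℝ) ≤ 192 * ((t : ℝ) + 1) * L := by positivity
  calc (n : ℝ) ^ 2 = n * n := sq _
    _ ≤ 192 * (t + 1) * (2 * k + 2) * L := hmain'
    _ = (192 * (t + 1) * L) * (2 * k + 2) := by ring
    _ ≤ (192 * (t + 1) * L) * (4 * y) := mul_le_mul_of_nonneg_left h5 h6
    _ = 768 * (t + 1) * L * y := by ring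

end Pool.Agent.H468R2.Mult
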